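import Pool.Agent.H494_RB.Fin

/-!
# Brauer's k(B) conjecture reduces to rational blocks of perfect groups

`O` is a valuation subring of `ℂ` whose maximal ideal contains `p`; it defines the `p`-blocks of
finite groups.

The proof: (a) the characters of `G ≀ Sym(I)` induced from the products of characters of
pairwise different blocks form a block (`wB_block`); with `I` the set of all blocks of `G` with the
same number of characters and the same order of the defect groups as a given one, the new block is
stable under Galois automorphisms and under multiplication with linear characters; (b) the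
idempotent of a block stable under multiplication with linear characters is supported on the
commutator subgroup; (c) so for a perfect group `A` a block of `G ^ A` with this property can be
compared with a block of the commutator subgroup of the regular wreath product `G ≀ A`, which is
perfect, with a loss which is only polynomial in `|A|`; (d) inside perfect groups (a) is repeated with
the alternating group of `I ^ 4` instead of the symmetric one.
-/

set_option autoImplicit false

open scoped BigOperators

namespace Pool.Agent.Results.MP_a15589_al.PerfectGroups

open Pool.Agent.H254R3.IN Pool.Agent.H494_RB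

/-- Let `p` be a prime. Brauer's `k(B)` conjecture holds for all `p`-blocks of all finite groups if
and only if for every `ε > 0` there is a `C` such that `k(B) ≤ C |D| ^ (1 + ε)` for all `p`-blocks
of finite perfect groups which are stable under all field automorphisms of `ℂ`. -/
theorem result (p : ℕ) [Fact p.Prime] (O : ValuationSubring ℂ) (hpO : (p : ℂ) ∈ O.nonunits) :
    (∀ (G : Type) [Group G] [Finite G] (B : Set (G → ℂ)) (D : Subgroup G), IsBlock O B →
      IsDefectGroup p O B D → Nat.card B ≤ Nat.card D) ↔
    ∀ ε : ℝ, 0 < ε → ∃ C : ℝ, ∀ (G : Type) [Group G] [Finite G] (B : Set (G → ℂ))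
      (D : Subgroup G), Group.IsPerfect G → IsBlock O B → IsDefectGroup p O B D →
      (∀ σ : ℂ ≃+* ℂ, ∀ χ ∈ B, (fun g => σ (χ g)) ∈ B) →
      (Nat.card B : ℝ) ≤ C * (Nat.card D : ℝ) ^ (1 + ε) := by
  constructor
  · intro h ε hε
    refine ⟨1, fun G _ _ B D _ hB hD _ => ?_⟩
    have h1 : (Nat.card B : ℝ) ≤ Nat.card D := by exact_mod_cast h G B D hB hD
    have h2 : (1 : ℝ) ≤ Nat.card D := by exact_mod_cast (Nat.card_pos : 0 < Nat.card D)
    rw [one_mul]
    refine h1.trans ?_
    calc (Nat.card D : ℝ) = (Nat.card D : ℝ) ^ (1 : ℝ) := (Real.rpow_one _).symm
      _ ≤ _ := Real.rpow_le_rpow_of_exponent_le h2 (by linarith)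
  · intro h G _ _ B D hB hD
    exact main_reduction hpO h G B D hB hD

end Pool.Agent.Results.MP_a15589_al.PerfectGroups
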